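import Pool.Agent.helper87.TR.Spec

/-!
# Row tr:LC (MP_3221a1_ag): local conditions at the columns
-/

set_option autoImplicit false

namespace Pool.Agent.helper87.TR

open Polynomial Finset Module FP97
open Pool.Agent.helper97.FP

/-- the exponents of the forced factor -/
def LC_t {h : ℕ} (B : Fin h → Finset ℂ) (k : Fin h) : ℕ :=
  if (B k).card = 2 then 1 else if 3 ≤ (B k).card then 2 else 0

theorem LC_tau {h : ℕ} (a : Fin h → ℂ) (B : Fin h → Finset ℂ) :
    tau a B = ∏ k, (X - C (a k)) ^ (LC_t B k) := by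
  unfold tau KK TT
  rw [prod_filter, prod_filter, ← prod_mul_distrib]
  refine prod_congr rfl fun k _ => ?_
  unfold LC_t
  by_cases h2 : (B k).card = 2
  · have h3 : ¬ 3 ≤ (B k).card := by omega
    rw [if_pos h2, if_neg h3, if_pos h2, mul_one, pow_one]
  · by_cases h3 : 3 ≤ (B k).card
    · rw [if_neg h2, if_pos h3, if_neg h2, if_pos h3, one_mul]
    · rw [if_neg h2, if_neg h3, if_neg h2, if_neg h3, one_mul, pow_zero]

theorem LC_split {h : ℕ} (a : Fin h → ℂ) (ha : Function.Injective a) (B : Fin h → Finset ℂ)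
    (k : Fin h) : ∃ R : ℂ[X], tau a B = (X - C (a k)) ^ (LC_t B k) * R ∧ R.eval (a k) ≠ 0 := by
  refine ⟨∏ j ∈ univ.erase k, (X - C (a j)) ^ (LC_t B j), ?_, ?_⟩
  · rw [LC_tau]
    exact (mul_prod_erase univ (fun j => (X - C (a j)) ^ (LC_t B j)) (mem_univ k)).symm
  · rw [eval_prod, prod_ne_zero_iff]
    intro j hj
    rw [eval_pow]
    apply pow_ne_zero
    rw [eval_sub, eval_X, eval_C]
    exact sub_ne_zero.2 fun h => (mem_erase.1 hj).1 (ha h).symm

theorem LC_Db (F G : Fin 3 → ℂ[X]) (τ : ℂ[X]) (x b : ℂ) (hF : ∀ q, F q = τ * G q) :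
    Db F x b ↔ (τ.eval x * ((G 0).eval x + b * (G 1).eval x + b ^ 2 * (G 2).eval x) = 0 ∧
      (derivative τ).eval x * ((G 0).eval x + b * (G 1).eval x + b ^ 2 * (G 2).eval x) +
        τ.eval x * ((derivative (G 0)).eval x + b * (derivative (G 1)).eval x +
          b ^ 2 * (derivative (G 2)).eval x) = 0 ∧
      τ.eval x * ((G 1).eval x + 2 * b * (G 2).eval x) = 0) := by
  unfold Db
  rw [hF 0, hF 1, hF 2]
  simp only [derivative_mul, eval_add, eval_mul]
  constructor
  · rintro ⟨h1, h2, h3⟩
    exact ⟨by linear_combination h1, by linear_combination h2, by linear_combination h3⟩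
  · rintro ⟨h1, h2, h3⟩
    exact ⟨by linear_combination h1, by linear_combination h2, by linear_combination h3⟩

theorem LC_two (F : Fin 3 → ℂ[X]) (x b b' : ℂ) (hb : b ≠ b') (h1 : Db F x b) (h2 : Db F x b') :
    ∀ q, (F q).eval x = 0 := by
  obtain ⟨a1, a2, a3⟩ := h1
  obtain ⟨b1, b2, b3⟩ := h2
  have hbb : 2 * (b - b') ≠ 0 := mul_ne_zero two_ne_zero (sub_ne_zero.2 hb)
  have c2 : (F 2).eval x = 0 := by
    apply (mul_eq_zero.1 (show 2 * (b - b') * (F 2).eval x = 0 by
      linear_combination a3 - b3)).resolve_left hbb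
  have c1 : (F 1).eval x = 0 := by
    rw [c2] at a3
    linear_combination a3
  have c0 : (F 0).eval x = 0 := by
    rw [c1, c2] at a1
    linear_combination a1
  intro q
  fin_cases q
  · exact c0
  · exact c1
  · exact c2

theorem LC_three (F : Fin 3 → ℂ[X]) (x b b' b'' : ℂ) (hb : b ≠ b') (hb' : b ≠ b'') (hb'' : b' ≠ b'')
    (h1 : Db F x b) (h2 : Db F x b') (h3 : Db F x b'') : ∀ q, (derivative (F q)).eval x = 0 := by
  obtain ⟨a1, a2, a3⟩ := h1
  obtain ⟨b1, b2, b3⟩ := h2
  obtain ⟨c1, c2, c3⟩ := h3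
  have d1 : (derivative (F 1)).eval x + (b + b') * (derivative (F 2)).eval x = 0 := by
    apply (mul_eq_zero.1 (show (b - b') * ((derivative (F 1)).eval x +
      (b + b') * (derivative (F 2)).eval x) = 0 by
      linear_combination a2 - b2)).resolve_left (sub_ne_zero.2 hb)
  have d2 : (derivative (F 1)).eval x + (b + b'') * (derivative (F 2)).eval x = 0 := by
    apply (mul_eq_zero.1 (show (b - b'') * ((derivative (F 1)).eval x +
      (b + b'') * (derivative (F 2)).eval x) = 0 by
      linear_combination a2 - c2)).resolve_left (sub_ne_zero.2 hb')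
  have e2 : (derivative (F 2)).eval x = 0 := by
    apply (mul_eq_zero.1 (show (b' - b'') * (derivative (F 2)).eval x = 0 by
      linear_combination d1 - d2)).resolve_left (sub_ne_zero.2 hb'')
  have e1 : (derivative (F 1)).eval x = 0 := by
    rw [e2] at d1
    linear_combination d1
  have e0 : (derivative (F 0)).eval x = 0 := by
    rw [e1, e2] at a2
    linear_combination a2
  intro q
  fin_cases q
  · exact e0
  · exact e1
  · exact e2

theorem LC : LC_stmt := by
  intro h a β B ha hB hS F
  -- the local behaviour of `tau`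
  have hone : ∀ k ∈ Sing B, (tau a B).eval (a k) ≠ 0 := by
    intro k hk
    rw [mem_Sing] at hk
    obtain ⟨R, hR, hR0⟩ := LC_split a ha B k
    have ht : LC_t B k = 0 := by
      unfold LC_t
      rw [if_neg (by omega), if_neg (by omega)]
    rw [hR, ht, pow_zero, one_mul]
    exact hR0
  have htwo : ∀ k ∈ KK B, (tau a B).eval (a k) = 0 ∧ (derivative (tau a B)).eval (a k) ≠ 0 := by
    intro k hk
    unfold KK at hk
    rw [mem_filter] at hk
    obtain ⟨R, hR, hR0⟩ := LC_split a ha B k
    have ht : LC_t B k = 1 := by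
      unfold LC_t
      rw [if_pos hk.2]
    rw [hR, ht, pow_one]
    refine ⟨?_, ?_⟩
    · rw [eval_mul, eval_sub, eval_X, eval_C, sub_self, zero_mul]
    · rw [derivative_mul, derivative_sub, derivative_X, derivative_C, sub_zero, one_mul, eval_add,
        eval_mul, eval_sub, eval_X, eval_C, sub_self, zero_mul, add_zero]
      exact hR0
  have hthree : ∀ k ∈ TT B, (tau a B).eval (a k) = 0 ∧ (derivative (tau a B)).eval (a k) = 0 := by
    intro k hk
    unfold TT at hk
    rw [mem_filter] at hk
    obtain ⟨R, hR, hR0⟩ := LC_split a ha B k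
    have ht : LC_t B k = 2 := by
      unfold LC_t
      rw [if_neg (by omega), if_pos hk.2]
    rw [← sq_dvd_iff, hR, ht]
    exact dvd_mul_right _ _
  constructor
  · intro hF
    have hdvd : ∀ q, tau a B ∣ F q := by
      intro q
      rw [LC_tau, prod_pow_dvd univ a ha.injOn]
      intro k _
      unfold LC_t
      by_cases h2 : (B k).card = 2
      · rw [if_pos h2, pow_one, dvd_iff_isRoot, IsRoot.def]
        obtain ⟨b, hb, b', hb', hne⟩ := one_lt_card.1 (show 1 < (B k).card by omega)
        exact LC_two F (a k) b b' hne (hF k b hb) (hF k b' hb') q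
      · by_cases h3 : 3 ≤ (B k).card
        · rw [if_neg h2, if_pos h3, sq_dvd_iff]
          obtain ⟨b, hb, b', hb', b'', hb'', n1, n2, n3⟩ :=
            two_lt_card.1 (show 2 < (B k).card by omega)
          exact ⟨LC_two F (a k) b b' n1 (hF k b hb) (hF k b' hb') q,
            LC_three F (a k) b b' b'' n1 n2 n3 (hF k b hb) (hF k b' hb') (hF k b'' hb'') q⟩
        · rw [if_neg h2, if_neg h3, pow_zero]
          exact one_dvd _
    choose G hG using hdvd
    refine ⟨G, hG, fun k hk => ?_, fun k hk b hb => ?_⟩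
    · have hb : β k ∈ B k := by rw [hS k hk]; exact mem_singleton_self _
      obtain ⟨h1, h2, h3⟩ := (LC_Db F G _ (a k) (β k) hG).1 (hF k _ hb)
      have h0 := hone k hk
      have g1 := (mul_eq_zero.1 h1).resolve_left h0
      rw [g1, mul_zero, zero_add] at h2
      exact ⟨g1, (mul_eq_zero.1 h2).resolve_left h0, (mul_eq_zero.1 h3).resolve_left h0⟩
    · obtain ⟨h1, h2, h3⟩ := (LC_Db F G _ (a k) b hG).1 (hF k b hb)
      obtain ⟨t1, t2⟩ := htwo k hk
      rw [t1, zero_mul, add_zero] at h2
      exact (mul_eq_zero.1 h2).resolve_left t2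
  · rintro ⟨G, hG, hG1, hG2⟩ k b hb
    rw [LC_Db F G _ (a k) b hG]
    have hk1 := hB k
    by_cases c1 : (B k).card = 1
    · have hk : k ∈ Sing B := mem_Sing.2 c1
      have hbe : b = β k := by
        have := hb
        rw [hS k hk] at this
        exact mem_singleton.1 this
      obtain ⟨g1, g2, g3⟩ := hG1 k hk
      rw [hbe, g1, g2, g3]
      simp
    · by_cases c2 : (B k).card = 2
      · have hk : k ∈ KK B := by
          unfold KK
          rw [mem_filter]
          exact ⟨mem_univ _, c2⟩
        obtain ⟨t1, t2⟩ := htwo k hk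
        rw [t1, hG2 k hk b hb]
        simp
      · have hk : k ∈ TT B := by
          unfold TT
          rw [mem_filter]
          exact ⟨mem_univ _, by omega⟩
        obtain ⟨t1, t2⟩ := hthree k hk
        rw [t1, t2]
        simp

end Pool.Agent.helper87.TR
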